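import Mathlib
import Pool.Agent.H.MP_5897b0_lc.E

set_option autoImplicit false

namespace Pool.Agent.Results.MP_0a8ab4_lc.Borel

open Classical

/-- block subspace: span of a block sequence of nonzero vectors -/
def IsBlock {F : Type} [Field F] (V : Submodule F (ℕ →₀ F)) : Prop :=
  ∃ x : ℕ → (ℕ →₀ F), (∀ n, x n ≠ 0) ∧
    (∀ n, ∀ i ∈ (x n).support, ∀ j ∈ (x (n + 1)).support, i < j) ∧
    V = Submodule.span F (Set.range x)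

theorem result (F : Type) [Field F] [Countable F] (hF : ∃ a : F, a ≠ 0 ∧ a ≠ 1) :
    ∃ 𝒜 : Set (Submodule F (ℕ →₀ F)), 𝒜.Infinite ∧ (∀ V ∈ 𝒜, IsBlock V) ∧
      (∀ V ∈ 𝒜, ∀ W ∈ 𝒜, V ≠ W → Module.Finite F ↥(V ⊓ W)) ∧
      (∀ Y : Submodule F (ℕ →₀ F), ¬ Module.Finite F Y → ∃ V ∈ 𝒜, ¬ Module.Finite F ↥(Y ⊓ V)) ∧
      @MeasurableSet _ (borel ((ℕ →₀ F) → Bool))
        ((fun (V : Submodule F (ℕ →₀ F)) (x : ℕ →₀ F) => (decide (x ∈ V) : Bool)) '' 𝒜) := by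
  obtain ⟨a, h0, h1⟩ := hF
  obtain ⟨𝒜, hinf, h2, -, h3, h4, h5⟩ := H.MP_5897b0_lc.main h0 h1
  refine ⟨𝒜, hinf, h2, h3, h4, ?_⟩
  rw [← BorelSpace.measurable_eq]
  exact h5

end Pool.Agent.Results.MP_0a8ab4_lc.Borel
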